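import Mathlib
import Pool.Agent.Helper46.TTT.Spec
import Pool.Agent.Helper46.TTT.FIN
import Pool.Agent.Helper46.TTT.GEO
import Pool.Agent.Helper16.TTT.NUM
import Pool.Agent.Helper46.TTT.TRA

/-!
# MP_0f0afc_co: the Weak Win threshold of the `n^d` Tic-Tac-Toe is `O(n² / log n)`

For every `ε > 0` and all large `n` the first player has a Weak Win on `[n]^d` for every
`d ≥ (log 2 / 2 + ε) n² / log n`; so `ww(n) ≤ (log 2 / 2 + o(1)) n² / log n` (the bound known before
was `(log 2 / 2) n²`, and `ww(n) ≥ (log 2 / 16 + o(1)) n² / log n` is known).

Beck's Weak Win criterion is applied to the geometric lines with `i` increasing and `i'`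
decreasing coordinates on which every constant value occurs exactly `c` times: every point of such
a line lies on at least `C(c+i, i) C(c+i', i')` lines of the family.
-/

set_option autoImplicit false

namespace Pool.Agent.Results.MP_0f0afc_co.WeakWinThreshold

/-- The point with parameter `t` on the geometric line `(a, s)` of `[n]^d`: coordinate `i` is
constant `a i` if `s i = 0`, equals `t` if `s i = 1` and is the reflection of `t` if `s i = 2`. -/
def linePoint {d n : ℕ} (a : Fin d → Fin n) (s : Fin d → Fin 3) (t : Fin n) : Fin d → Fin n :=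
  fun i => if s i = 0 then a i else if s i = 1 then t else Fin.rev t

/-- A full play: the list of all points of the board, in the order in which they were claimed. -/
def FullPlay {P : Type} (h : List P) : Prop := h.Nodup ∧ ∀ p, p ∈ h

/-- The first player, who makes the moves number `0, 2, 4, …`, followed the strategy `σ`. -/
def Follows {P : Type} (σ : List P → P) (h : List P) : Prop :=
  ∀ (k : ℕ) (hk : k < h.length), Even k → h[k] = σ (h.take k)

/-- The strategy `σ` (a function of the moves made so far) never names a claimed point as long as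
the board is not full. -/
def Legal {P : Type} (σ : List P → P) : Prop :=
  ∀ h : List P, h.Nodup → (∃ p, p ∉ h) → σ h ∉ h

/-- The first player has a Weak Win on `[n]^d`: a strategy such that, whatever the second player
does, when the board is full the first player owns all points of some geometric line. -/
def WeakWin (n d : ℕ) : Prop :=
  ∃ σ : List (Fin d → Fin n) → (Fin d → Fin n), Legal σ ∧
    ∀ h : List (Fin d → Fin n), FullPlay h → Follows σ h →
      ∃ (a : Fin d → Fin n) (s : Fin d → Fin 3), (∃ i, s i ≠ 0) ∧
        ∀ t : Fin n, Even (h.idxOf (linePoint a s t))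

/-- `ww(n) ≤ (log 2 / 2 + o(1)) n² / log n`. -/
theorem result (ε : ℝ) (hε : 0 < ε) : ∃ n0 : ℕ, ∀ n : ℕ, n0 ≤ n → ∀ d : ℕ,
    (Real.log 2 / 2 + ε) * (n : ℝ) ^ 2 / Real.log n ≤ d → WeakWin n d :=
  Pool.Agent.Helper46.TTT.FIN.ww
    (Pool.Agent.Helper46.TTT.GEO.main Pool.Agent.Helper46.TTT.TRA.main)
    Pool.Agent.Helper16.TTT.NUM.main ε hε

end Pool.Agent.Results.MP_0f0afc_co.WeakWinThreshold
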